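import Pool.Agent.Lib.DI.PI.SpecB

/-!
# Part I (helper55): the descent theorem relative to an intermediate field

`K ≤ E ≤ L`. The descent theorem of DI (`DI/PI/SpecB.lean`, `S_JMain`) assumes `XFinGen p (cyc p K)` and the hypothesis `Meas` for
all nontrivial characters of `Gal(L/K)`. Here `XFinGen p (cyc p E)` is assumed, and `Meas` only for the characters which are
not trivial on `Gal(L/E)`.
-/

set_option autoImplicit false

open scoped Pointwise

noncomputable section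

namespace Pool.Agent.DS.PI

open Pool.Agent.MuZ
open Pool.Agent.DI.PI

/-- The hypothesis of the descent: `Meas` for every character of `Gal(Om/K)`, trivial on `Gal(Om/L)` and not trivial
on `Gal(Om/E)`. -/
def HypJ (p : ℕ) (K E L : IntermediateField ℚ Om) : Prop :=
  ∃ P : Ideal ZZ, P.IsPrime ∧ (p : ZZ) ∈ P ∧ ∀ χ : Gal(Om/ℚ) → ZZ ⧸ P,
    (∀ σ ∈ K.fixingSubgroup, ∀ τ ∈ K.fixingSubgroup, χ (σ * τ) = χ σ * χ τ) →
    (∀ σ ∈ L.fixingSubgroup, χ σ = 1) → (∃ σ ∈ E.fixingSubgroup, χ σ ≠ 1) →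
    ∃ (n0 : ℕ) (a : ℕ → Gal(Om/ℚ) → ZMod p), Meas p K L P χ n0 a

end Pool.Agent.DS.PI
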