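import Pool.Agent.Lib.DN.Base
import Pool.Agent.Lib.DS.Iface

/-!
# Part I (helper55): the ray class fields and the field `Wf`, for all imaginary quadratic fields

`RCF k t M` is the field of all elements fixed by the `τ` in `Gal(Om/K)` which act on the `M`-torsion as a principal ideal
`(α)`, `α = 1` modulo `M` (`15 ∣ M`). Every number field inside `Wf k t` is inside `RCF k t M` for all multiples `M` of some
number (`ft`). Copies of `DN/PI/{RX,We,FT}.lean` with `[SqN k t]`.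
-/

set_option autoImplicit false

open scoped Pointwise nonZeroDivisors

noncomputable section

namespace Pool.Agent.DS.PI

open Pool.Agent.MuZ Pool.Agent.DN NumberField IsDedekindDomain
open Pool.Agent.DI (io ofC io_inj exists_io io_ofC ofC_io VP MP UP TP ex sqr sqr_sq kap)

/-- The ray class field modulo `M`, `15 ∣ M`. -/
def RCF (k t M : ℕ) : IntermediateField ℚ Om := FixI M (fun a : Ideal (OO k t) => Ray M a ⊤)

/-- `psi_cop`, for all fields. -/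
theorem pri_of_dvd (hO6 : DN.S_O6) {k t : ℕ} [SqN k t] {N M : ℕ} {a : Ideal (OO k t)}
    (h : PrI a N) (hd : M ∣ N) : PrI a M := by
  obtain ⟨c, rfl⟩ := hd
  exact (((hO6 k t).2.1 M c a).1 h).1

theorem rcf_x (hO1 : DN.S_O1) (hO6 : DN.S_O6) (hB1 : DN.S_B1) (hB7 : DN.S_B7) (k t : ℕ)
    [SqN k t] (M : ℕ) (hM : 0 < M) (h15 : 15 ∣ M) :
    (∀ z : ℂ, z ∉ Lam (⊤ : Ideal (OO k t)) → (M : ℂ) * z ∈ Lam (⊤ : Ideal (OO k t)) →
      xO (⊤ : Ideal (OO k t)) z ∈ RCF k t M) ∧ wO k t ∈ RCF k t M := by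
  have := hO1 k t
  have hnt : (⊤ : Ideal (OO k t)) ≠ ⊥ := top_ne_bot
  have ht15 : PrI (⊤ : Ideal (OO k t)) 15 := top_sup_eq _
  refine ⟨?_, ?_⟩
  · intro z hz hMz τ _ a hψ hR
    have ha15 : PrI a 15 := pri_of_dvd hO6 hψ.cop (dvd_mul_right 15 M)
    obtain ⟨α, α', hα, hα', hc, -, hd, he⟩ := hR
    obtain ⟨β, -, hβ⟩ := cop_inv hc
    have hβ' : (M : OO k t) ∣ α' * β - 1 := by
      have h3 : α' * β - 1 = (α * β - 1) - (α - α') * β := by ring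
      rw [h3]
      exact dvd_sub hβ (dvd_mul_of_dvd_left hd β)
    have hβ0 : β ≠ 0 := by
      rintro rfl
      have h4 : (M : OO k t) ∣ 1 := by
        rw [mul_zero, zero_sub] at hβ
        exact (dvd_neg).1 hβ
      obtain ⟨u, hu⟩ := h4
      apply hz
      have h5 : (1 : ℂ) = (M : ℂ) * toC u := by
        have h6 := congrArg toC hu
        rw [toC_mul, toC_nat, toC_one] at h6
        exact h6
      have h7 : z = toC u * ((M : ℂ) * z) := by linear_combination z * h5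
      rw [h7]
      exact lam_mul u hMz
    have hper : ∀ (b : Ideal (OO k t)), b ≠ ⊥ → ∀ z l : ℂ, l ∈ Lam b → XC b (z + l) = XC b z := by
      intro b hb z l hl
      unfold XC
      rw [((hB1 k t b hb).1 z l hl).1]
    have key : ∀ (u : OO k t) (b : Ideal (OO k t)), (M : OO k t) ∣ u - 1 → b ≠ ⊥ →
        XC b (toC u * z) = XC b z := by
      intro u b hu hb
      obtain ⟨c, hc1⟩ := hu
      have h8 : toC u * z = z + toC c * ((M : ℂ) * z) := by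
        have h9 := congrArg toC hc1
        rw [toC_sub, toC_mul, toC_nat, toC_one] at h9
        linear_combination z * h9
      rw [h8]
      exact hper b hb z _ (lam_mul c (lam_anti le_top hMz))
    have d3 : ∀ u : OO k t, (M : OO k t) ∣ u - 1 → (3 : OO k t) ∣ u - 1 := by
      intro u hu
      refine dvd_trans ?_ hu
      have h0 : (((3 : ℕ) : OO k t)) ∣ (M : OO k t) := Nat.cast_dvd_cast (dvd_trans ⟨5, rfl⟩ h15)
      rwa [Nat.cast_ofNat] at h0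
    have d5 : ∀ u : OO k t, (M : OO k t) ∣ u - 1 → (5 : OO k t) ∣ u - 1 := by
      intro u hu
      refine dvd_trans ?_ hu
      have h0 : (((5 : ℕ) : OO k t)) ∣ (M : OO k t) := Nat.cast_dvd_cast (dvd_trans ⟨3, rfl⟩ h15)
      rwa [Nat.cast_ofNat] at h0
    have h10 : XC a z = XC (sp (α * β) * a) z := by
      rw [((((hB7 k t a hψ.ne).2.2 ha15).1 (α * β) (mul_ne_zero hα hβ0) (d3 _ hβ)
        (Or.inl (d5 _ hβ))).2.2.2 z).1]
      exact (key _ a hβ hψ.ne).symm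
    have h11 : XC (⊤ : Ideal (OO k t)) z = XC (sp (α' * β) * ⊤) z := by
      rw [((((hB7 k t ⊤ hnt).2.2 ht15).1 (α' * β) (mul_ne_zero hα' hβ0) (d3 _ hβ')
        (Or.inl (d5 _ hβ'))).2.2.2 z).1]
      exact (key _ ⊤ hβ' hnt).symm
    have h12 : sp (α * β) * a = sp (α' * β) * (⊤ : Ideal (OO k t)) := by
      have h13 : sp (α * β) = sp β * sp α := by
        rw [mul_comm α β]
        exact (Ideal.span_singleton_mul_span_singleton β α).symm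
      have h14 : sp (α' * β) = sp β * sp α' := by
        rw [mul_comm α' β]
        exact (Ideal.span_singleton_mul_span_singleton β α').symm
      rw [h13, h14, mul_assoc, mul_assoc]
      exact congrArg (fun I => sp β * I) he
    rw [hψ.xx ⊤ hnt ht15 z hMz, Ideal.mul_top]
    unfold xO
    rw [h10, h11, h12]
  · intro τ hτ a _ _
    exact mem_GK_iff.1 hτ

private theorem We_alg {p1 p2 p3 q f x1 x2 x3 : ℂ} (hf : f ≠ 0) (h1 : x1 = (p1 - q) / f ^ 2)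
    (h2 : x2 = (p2 - q) / f ^ 2) (h3 : x3 = (p3 - q) / f ^ 2) :
    (x1 - x2) / (x3 - x2) = (p1 - p2) / (p3 - p2) := by
  have hf2 : f ^ 2 ≠ 0 := pow_ne_zero 2 hf
  have e1 : x1 - x2 = (p1 - p2) / f ^ 2 := by rw [h1, h2]; ring
  have e2 : x3 - x2 = (p3 - p2) / f ^ 2 := by rw [h3, h2]; ring
  rw [e1, e2, div_div_div_cancel_right₀ hf2]

theorem rcf_cr (l2 : DN.S_L2) (b1 : DN.S_B1) (r1 : DS.S_R1) (k t : ℕ) [SqN k t] (M : ℕ)
    (hM : 0 < M)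
    (hx : ∀ z : ℂ, z ∉ Lam (⊤ : Ideal (OO k t)) → (M : ℂ) * z ∈ Lam (⊤ : Ideal (OO k t)) →
        xO (⊤ : Ideal (OO k t)) z ∈ RCF k t M) (z₁ z₂ z₃ : ℂ)
    (hz1 : z₁ ∉ Lam (⊤ : Ideal (OO k t))) (hz2 : z₂ ∉ Lam (⊤ : Ideal (OO k t)))
    (hz3 : z₃ ∉ Lam (⊤ : Ideal (OO k t))) (hM1 : (M : ℂ) * z₁ ∈ Lam (⊤ : Ideal (OO k t)))
    (hM2 : (M : ℂ) * z₂ ∈ Lam (⊤ : Ideal (OO k t))) (hM3 : (M : ℂ) * z₃ ∈ Lam (⊤ : Ideal (OO k t))) :
    ofC (crC k t z₁ z₂ z₃) ∈ RCF k t M := by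
  have ht : (⊤ : Ideal (OO k t)) ≠ ⊥ := top_ne_bot
  have ht15 : PrI (⊤ : Ideal (OO k t)) 15 := top_sup_eq _
  have hG : G15 (⊤ : Ideal (OO k t)) := ⟨ht, ht15⟩
  have hfr : fr (⊤ : Ideal (OO k t)) ≠ 0 := ((b1 k t ⊤ ht).2.2.2.2.2 ht15).1
  have hio : ∀ z : ℂ, (M : ℂ) * z ∈ Lam (⊤ : Ideal (OO k t)) →
      io (xO (⊤ : Ideal (OO k t)) z) = XC (⊤ : Ideal (OO k t)) z := by
    intro z hz
    have hT : Tor k t z := ((l2 k t).2.2.2.2.2.2.2 ⊤ z ht).2 ⟨M, hM, hz⟩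
    exact (((r1.1 k t).1 ⊤ hG).2.2.1 z hT).1
  have e : ofC (crC k t z₁ z₂ z₃) = (xO (⊤ : Ideal (OO k t)) z₁ - xO (⊤ : Ideal (OO k t)) z₂) /
      (xO (⊤ : Ideal (OO k t)) z₃ - xO (⊤ : Ideal (OO k t)) z₂) := by
    rw [← ofC_io ((xO (⊤ : Ideal (OO k t)) z₁ - xO (⊤ : Ideal (OO k t)) z₂) /
      (xO (⊤ : Ideal (OO k t)) z₃ - xO (⊤ : Ideal (OO k t)) z₂))]
    congr 1
    rw [map_div₀, map_sub, map_sub, hio z₁ hM1, hio z₂ hM2, hio z₃ hM3]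
    unfold crC
    exact (We_alg hfr rfl rfl rfl).symm
  rw [e]
  exact div_mem (sub_mem (hx z₁ hz1 hM1) (hx z₂ hz2 hM2)) (sub_mem (hx z₃ hz3 hM3) (hx z₂ hz2 hM2))

private theorem FT_mem (hL2 : DN.S_L2) (k t : ℕ) [SqN k t]
    (hR : ∀ M : ℕ, 0 < M → 15 ∣ M → wO k t ∈ RCF k t M ∧
      ∀ z₁ z₂ z₃ : ℂ, z₁ ∉ Lam (⊤ : Ideal (OO k t)) → z₂ ∉ Lam (⊤ : Ideal (OO k t)) →
      z₃ ∉ Lam (⊤ : Ideal (OO k t)) → (M : ℂ) * z₁ ∈ Lam (⊤ : Ideal (OO k t)) →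
      (M : ℂ) * z₂ ∈ Lam (⊤ : Ideal (OO k t)) → (M : ℂ) * z₃ ∈ Lam (⊤ : Ideal (OO k t)) →
      ofC (crC k t z₁ z₂ z₃) ∈ RCF k t M) (x : Om) (hx : x ∈ Wf k t) :
    ∃ M : ℕ, 0 < M ∧ ∀ M' : ℕ, 0 < M' → 15 ∣ M' → M ∣ M' → x ∈ RCF k t M' := by
  have two : ∀ x y : Om,
      (∃ M : ℕ, 0 < M ∧ ∀ M' : ℕ, 0 < M' → 15 ∣ M' → M ∣ M' → x ∈ RCF k t M') →
      (∃ M : ℕ, 0 < M ∧ ∀ M' : ℕ, 0 < M' → 15 ∣ M' → M ∣ M' → y ∈ RCF k t M') →
      ∃ M : ℕ, 0 < M ∧ ∀ M' : ℕ, 0 < M' → 15 ∣ M' → M ∣ M' → x ∈ RCF k t M' ∧ y ∈ RCF k t M' := by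
    rintro x y ⟨M, hM, hx⟩ ⟨M', hM', hy⟩
    refine ⟨M * M', Nat.mul_pos hM hM', fun M'' h0 h15 h => ⟨?_, ?_⟩⟩
    · exact hx M'' h0 h15 ((Dvd.intro _ rfl).trans h)
    · exact hy M'' h0 h15 ((Dvd.intro_left _ rfl).trans h)
  have up : ∀ (N c : ℕ) (z : ℂ), (N : ℂ) * z ∈ Lam (⊤ : Ideal (OO k t)) →
      ((c * N : ℕ) : ℂ) * z ∈ Lam (⊤ : Ideal (OO k t)) := by
    intro N c z hz
    have h1 : ((c * N : ℕ) : ℂ) * z = toC ((c : ℕ) : OO k t) * ((N : ℂ) * z) := by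
      rw [toC_nat]
      push_cast
      ring
    rw [h1]
    exact lam_mul _ hz
  unfold Wf at hx
  induction hx using IntermediateField.adjoin_induction with
  | mem a ha =>
    rcases ha with ha | ⟨z₁, z₂, z₃, ht1, ht2, ht3, h1, h2, h3, rfl⟩
    · refine ⟨1, one_pos, fun M' h0 h15 _ => ?_⟩
      rw [Set.mem_singleton_iff] at ha
      subst ha
      exact (hR M' h0 h15).1
    · obtain ⟨-, -, -, -, -, -, -, h8⟩ := hL2 k t
      obtain ⟨N1, hN1, hNz1⟩ := (h8 (⊤ : Ideal (OO k t)) z₁ top_ne_bot).1 ht1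
      obtain ⟨N2, hN2, hNz2⟩ := (h8 (⊤ : Ideal (OO k t)) z₂ top_ne_bot).1 ht2
      obtain ⟨N3, hN3, hNz3⟩ := (h8 (⊤ : Ideal (OO k t)) z₃ top_ne_bot).1 ht3
      refine ⟨N1 * N2 * N3, Nat.mul_pos (Nat.mul_pos hN1 hN2) hN3, fun M' h0 h15 hd => ?_⟩
      obtain ⟨c, rfl⟩ := hd
      refine (hR _ h0 h15).2 z₁ z₂ z₃ h1 h2 h3 ?_ ?_ ?_
      · have h4 := up N1 (N2 * N3 * c) z₁ hNz1
        have h5 : N2 * N3 * c * N1 = N1 * N2 * N3 * c := by ring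
        rwa [h5] at h4
      · have h4 := up N2 (N1 * N3 * c) z₂ hNz2
        have h5 : N1 * N3 * c * N2 = N1 * N2 * N3 * c := by ring
        rwa [h5] at h4
      · have h4 := up N3 (N1 * N2 * c) z₃ hNz3
        have h5 : N1 * N2 * c * N3 = N1 * N2 * N3 * c := by ring
        rwa [h5] at h4
  | algebraMap r => exact ⟨1, one_pos, fun M' _ _ _ => IntermediateField.algebraMap_mem _ r⟩
  | add x y _ _ hx hy =>
    obtain ⟨M, hM, h⟩ := two x y hx hy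
    exact ⟨M, hM, fun M' h0 h15 hd => add_mem (h M' h0 h15 hd).1 (h M' h0 h15 hd).2⟩
  | inv x _ hx =>
    obtain ⟨M, hM, h1⟩ := hx
    exact ⟨M, hM, fun M' h0 h15 hd => inv_mem (h1 M' h0 h15 hd)⟩
  | mul x y _ _ hx hy =>
    obtain ⟨M, hM, h⟩ := two x y hx hy
    exact ⟨M, hM, fun M' h0 h15 hd => mul_mem (h M' h0 h15 hd).1 (h M' h0 h15 hd).2⟩

/-- Number fields inside `Wf k t`. -/
theorem ft (hO1 : DN.S_O1) (hO6 : DN.S_O6) (hL2 : DN.S_L2) (hB1 : DN.S_B1) (hB7 : DN.S_B7)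
    (r1 : DS.S_R1) (k t : ℕ) [SqN k t] (F : IntermediateField ℚ Om)
    (hF : FiniteDimensional ℚ F) (hFT : F ≤ Wf k t) :
    ∃ M : ℕ, 0 < M ∧ ∀ M' : ℕ, 0 < M' → 15 ∣ M' → M ∣ M' → F ≤ RCF k t M' := by
  classical
  have hR : ∀ M : ℕ, 0 < M → 15 ∣ M → wO k t ∈ RCF k t M ∧
      ∀ z₁ z₂ z₃ : ℂ, z₁ ∉ Lam (⊤ : Ideal (OO k t)) → z₂ ∉ Lam (⊤ : Ideal (OO k t)) →
      z₃ ∉ Lam (⊤ : Ideal (OO k t)) → (M : ℂ) * z₁ ∈ Lam (⊤ : Ideal (OO k t)) →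
      (M : ℂ) * z₂ ∈ Lam (⊤ : Ideal (OO k t)) → (M : ℂ) * z₃ ∈ Lam (⊤ : Ideal (OO k t)) →
      ofC (crC k t z₁ z₂ z₃) ∈ RCF k t M := fun M hM h15 => by
    obtain ⟨h1, h2⟩ := rcf_x hO1 hO6 hB1 hB7 k t M hM h15
    exact ⟨h2, fun z₁ z₂ z₃ a b c d e f => rcf_cr hL2 hB1 r1 k t M hM h1 z₁ z₂ z₃ a b c d e f⟩
  obtain ⟨s, hs⟩ := hF.fg_top
  choose! Mf0 hMf1 hMf2 using FT_mem hL2 k t hR
  refine ⟨∏ x ∈ s, Mf0 (x : Om), Finset.prod_pos fun x _ => hMf1 x (hFT x.2), ?_⟩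
  intro M' hM' h15 hd y hy
  have h1 : (⟨y, hy⟩ : F) ∈ Submodule.span ℚ (s : Set F) := by
    rw [hs]
    exact Submodule.mem_top
  have h2 : ∀ z : F, z ∈ Submodule.span ℚ (s : Set F) → (z : Om) ∈ RCF k t M' := by
    intro z hz
    induction hz using Submodule.span_induction with
    | mem x hx =>
      exact hMf2 x (hFT x.2) _ hM' h15
        ((Finset.dvd_prod_of_mem (fun x : F => Mf0 (x : Om)) hx).trans hd)
    | zero => exact zero_mem _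
    | add x y _ _ hx hy => exact add_mem hx hy
    | smul a x _ hx =>
      have h3 : ((a • x : F) : Om) = algebraMap ℚ Om a * (x : Om) := by
        rw [← Algebra.smul_def]
        rfl
      rw [h3]
      exact mul_mem (IntermediateField.algebraMap_mem _ a) hx
  exact h2 _ h1

end Pool.Agent.DS.PI
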