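import Pool.Agent.Lib.DS.PI.JCor
import Pool.Agent.Lib.DI.PI.Top
import Pool.Agent.Lib.MuZ.AsmA

set_option autoImplicit false

/-!
# Part I (helper55): the descent theorem relative to an intermediate field (copy of `DI/PI/JMain.lean`)
-/

open scoped Pointwise

noncomputable section

namespace Pool.Agent.DS.PI

open Pool.Agent.MuZ Pool.Agent.DI.PI

/-- **The descent theorem relative to `E`.** -/
theorem pJM (p : ℕ) [Fact p.Prime] (K E L : IntermediateField ℚ Om) (hL : FiniteDimensional ℚ L)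
    (hKL : K ≤ L) (hKE : K ≤ E) (hEL : E ≤ L)
    (hnorm : ∀ σ ∈ K.fixingSubgroup, ∀ x ∈ L, σ x ∈ L)
    (hnE : ∀ σ ∈ K.fixingSubgroup, ∀ x ∈ E, σ x ∈ E)
    (hcomm : ∀ σ ∈ K.fixingSubgroup, ∀ τ ∈ K.fixingSubgroup, ∀ x ∈ L, σ (τ x) = τ (σ x))
    (hcop : ¬ p * Module.finrank ℚ K ∣ Module.finrank ℚ L) (hI : HypJ p K E L)
    (hXE : XFinGen p (cyc p E)) : XFinGen p (cyc p L) := by
  have hE : FiniteDimensional ℚ E :=
    FiniteDimensional.of_injective (IntermediateField.inclusion hEL).toLinearMap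
      (IntermediateField.inclusion hEL).injective
  have hK : FiniteDimensional ℚ K :=
    FiniteDimensional.of_injective (IntermediateField.inclusion hKL).toLinearMap
      (IntermediateField.inclusion hKL).injective
  obtain ⟨γ, Y, hS⟩ := pJSit c_QZ c_Sub c_PL c_Pc c_TFix c_NF c_Val c_Lev p K L hL hKL hnorm hcomm hcop
  have hlay := pJLay pUnq c_Lev c_Val pEle c_Lay p K L hL hKL γ Y hS
  obtain ⟨-, -, hTr3⟩ := c_Tr conj p K hK
  obtain ⟨-, -, -, hLK4, -⟩ := c_LK conj c_InT ram (orb frob pow tot) p K hK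
  have hKc : IsClosed (K.fixingSubgroup : Set Gal(Om/ℚ)) :=
    IntermediateField.fixingSubgroup_isClosed K
  have : CompactSpace K.fixingSubgroup := isCompact_iff_compactSpace.1 hKc.isCompact
  have : TotallyDisconnectedSpace K.fixingSubgroup := inferInstance
  have : T2Space K.fixingSubgroup := inferInstance
  rw [Top_C p K L hL hKL hnorm]
  intro S _ _ _ ρ hirr htriv
  by_cases hρ : ∃ g : K.fixingSubgroup, (g : Gal(Om/ℚ)) ∈ E.fixingSubgroup ∧ ρ g ≠ 1
  · have htr : ∀ g ∈ tr K L, ρ g = 1 := fun g hg => htriv g hg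
    obtain ⟨n0, a, hcore⟩ := pJCor pJCh pFld1 pRpS c_Lev c_Val pEle p K E L hL hKL hKE γ Y hS hlay hI S ρ
      hirr htriv hρ
    have hrel := pRel1 c_Lev c_Val pEle pRep pRp2 pAlg1 pFld1 K.fixingSubgroup p (LocK p K)
      (tr K (cyc p K)) (tr K L) γ Y hS S ρ hirr htr n0 a hcore
    obtain ⟨-, -, ⟨F0, hF0⟩, hF0'⟩ := hlay n0
    obtain ⟨hKF0, hfin0, htr0⟩ := hF0' F0 hF0
    have hfinVV := pJKF c_InT Top_KF p K F0 hfin0 hKF0
    rw [htr0] at hfinVV
    have hW := pFinW c_Lev c_Val c_Semi pEle K.fixingSubgroup p (LocK p K) (tr K (cyc p K))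
      (tr K L) γ Y hS n0 hfinVV S
    obtain ⟨C, hC'⟩ := pBnd c_Lev c_Val c_Uni pEle pRep K.fixingSubgroup p (LocK p K)
      (tr K (cyc p K)) (tr K L) γ Y hS S ρ htr n0 hW hrel
    obtain ⟨b, hb⟩ := c_EB K.fixingSubgroup p (PX p) (tr K (cyc p K)) hLK4 S ρ
    have hp : 1 < p := (Fact.out : p.Prime).one_lt
    have hlt : C + b < p ^ (n0 + (C + b)) :=
      lt_of_lt_of_le (Nat.lt_pow_self hp) (Nat.pow_le_pow_right (by omega) (by omega))
    obtain ⟨⟨F, hF, hFY⟩, -⟩ := hlay (n0 + (C + b))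
    refine ⟨n0 + (C + b), F, hF, Or.inl ?_⟩
    have hFY' : F.fixingSubgroup.subgroupOf K.fixingSubgroup = Y (n0 + (C + b)) := hFY
    obtain ⟨e1, e2⟩ := hTr3 S ρ F
    rw [← e1, ← e2, hFY']
    calc Module.rank (ZMod p) (Coc (LocK p K) ρ (Y (n0 + (C + b))) (Y (n0 + (C + b)))) +
          Module.rank (ZMod p) (EqF (X := PX p) ρ (Y (n0 + (C + b))))
        ≤ (C : Cardinal) + (b : Cardinal) :=
          add_le_add (hC' _ (Nat.le_add_right _ _)) (hb _ (hS.yn _))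
      _ = ((C + b : ℕ) : Cardinal) := by push_cast; rfl
      _ < ((p ^ (n0 + (C + b)) : ℕ) : Cardinal) := Nat.cast_lt.2 hlt
      _ ≤ ((p ^ (n0 + (C + b)) : ℕ) : Cardinal) + Module.rank (ZMod p) S := le_self_add
  · have hρ' : ∀ g : K.fixingSubgroup, (g : Gal(Om/ℚ)) ∈ E.fixingSubgroup → ρ g = 1 :=
      fun g hg => by
        by_contra h
        exact hρ ⟨g, hg, h⟩
    exact (Top_C p K E hE hKE hnE).1 hXE S ρ hirr hρ'

end Pool.Agent.DS.PI
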